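import Pool.Agent.MWBN.Stmts

/-!
# MWBN, row IDN: raise an occurrence of a multiple letter
-/

namespace Pool.Agent.MWBN.H27

open Pool.Agent.Helper14_MV Pool.Agent.Helper2_MV Pool.Agent.MVO Pool.Agent.MWL Pool.Agent.MWS

theorem rep_add {n : ℕ} {β : FIC} (h : RR β [0, 0] (List.replicate (n + 2) 0)) (x p m : ℕ)
    (hp : 2 ≤ p) : RR β (List.replicate p x) (List.replicate (n * m + p) x) := by
  have h0 : RR β [x, x] (List.replicate (n + 2) x) := by
    have h1 := h.sub (fun _ => [x])
    have e : (List.replicate (n + 2) 0).flatMap (fun _ => [x]) = List.replicate (n + 2) x := by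
      rw [List.eq_replicate_iff]
      constructor
      · simp
      · intro b hb
        rw [List.mem_flatMap] at hb
        obtain ⟨_, _, hb⟩ := hb
        exact List.mem_singleton.1 hb
    rw [e] at h1
    exact h1
  induction m with
  | zero => simpa using RR.refl (β := β) (List.replicate p x)
  | succ m ih =>
    have h1 : RR β ([x, x] ++ List.replicate (p - 2 + n * m) x)
        (List.replicate (n + 2) x ++ List.replicate (p - 2 + n * m) x) :=
      h0.append (RR.refl (β := β) _)
    have e1 : ([x, x] ++ List.replicate (p - 2 + n * m) x : List ℕ)
        = List.replicate (n * m + p) x := by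
      have : ([x, x] : List ℕ) = List.replicate 2 x := rfl
      rw [this, List.replicate_append_replicate]
      congr 1
      omega
    have e2 : (List.replicate (n + 2) x ++ List.replicate (p - 2 + n * m) x : List ℕ)
        = List.replicate (n * (m + 1) + p) x := by
      rw [List.replicate_append_replicate]
      congr 1
      have : n * (m + 1) = n * m + n := by ring
      omega
    rw [e1, e2] at h1
    exact β.trans ih h1

theorem idn : IdnStmt := by
  intro n β hn h hbe p q x hx m
  have star : ∀ w : List ℕ, RR β ([x] ++ (w ++ [x]))
      (List.replicate (n + 1) x ++ (w ++ List.replicate (n + 1) x)) := by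
    intro w
    have h1 := hbe.sub (fun i => if i = 0 then [x] else w)
    have e1 : ([0, 1, 0] : List ℕ).flatMap (fun i => if i = 0 then [x] else w) =
        [x] ++ (w ++ [x]) := by simp
    have e3 : (List.replicate (n + 1) 0).flatMap (fun i => if i = 0 then [x] else w) =
        List.replicate (n + 1) x := by
      rw [List.eq_replicate_iff]
      constructor
      · rw [List.length_flatMap]
        simp
      · intro b hb
        rw [List.mem_flatMap] at hb
        obtain ⟨a, ha, hb⟩ := hb
        rw [List.eq_of_mem_replicate ha, if_pos rfl] at hb
        exact List.mem_singleton.1 hb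
    have e2 : (List.replicate (n + 1) 0 ++ 1 :: List.replicate (n + 1) 0).flatMap
        (fun i => if i = 0 then [x] else w) =
        List.replicate (n + 1) x ++ (w ++ List.replicate (n + 1) x) := by
      rw [List.flatMap_append, List.flatMap_cons, e3, if_neg (by decide)]
    rw [e1, e2] at h1
    exact h1
  have hL : ∀ w : List ℕ, RR β ([x] ++ (w ++ [x])) (List.replicate (n * m + 1) x ++ (w ++ [x])) := by
    intro w
    have h1 := (RR.refl (β := β) (List.replicate (n * m) x)).append (star w)
    have h2 := (rep_add h x (n + 1) m (by omega)).append
      (RR.refl (β := β) (w ++ List.replicate (n + 1) x))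
    have e1 : List.replicate (n * m) x ++ (List.replicate (n + 1) x ++
        (w ++ List.replicate (n + 1) x)) =
        List.replicate (n * m + (n + 1)) x ++ (w ++ List.replicate (n + 1) x) := by
      rw [← List.append_assoc, List.replicate_append_replicate]
    have e2 : List.replicate (n * m) x ++ ([x] ++ (w ++ [x])) =
        List.replicate (n * m + 1) x ++ (w ++ [x]) := by
      rw [← List.append_assoc]
      have : ([x] : List ℕ) = List.replicate 1 x := rfl
      conv_lhs => rw [this]
      rw [List.replicate_append_replicate]
      rfl
    rw [e1, e2] at h1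
    exact β.trans (star w) (β.trans h2 (RR.symm h1))
  have hR : ∀ w : List ℕ, RR β ([x] ++ (w ++ [x])) ([x] ++ (w ++ List.replicate (n * m + 1) x)) := by
    intro w
    have h1 := (star w).append (RR.refl (β := β) (List.replicate (n * m) x))
    have h2 := (RR.refl (β := β) (List.replicate (n + 1) x ++ w)).append
      (rep_add h x (n + 1) m (by omega))
    have e1 : (List.replicate (n + 1) x ++
        (w ++ List.replicate (n + 1) x)) ++ List.replicate (n * m) x =
        (List.replicate (n + 1) x ++ w) ++ List.replicate (n * m + (n + 1)) x := by
      rw [List.append_assoc, List.append_assoc, List.append_assoc,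
        List.replicate_append_replicate, Nat.add_comm (n + 1)]
    have e2 : ([x] ++ (w ++ [x])) ++ List.replicate (n * m) x =
        [x] ++ (w ++ List.replicate (n * m + 1) x) := by
      rw [List.append_assoc, List.append_assoc]
      rfl
    have e3 : (List.replicate (n + 1) x ++ w) ++ List.replicate (n + 1) x =
        List.replicate (n + 1) x ++ (w ++ List.replicate (n + 1) x) := List.append_assoc _ _ _
    rw [e1, e2] at h1
    rw [e3] at h2
    exact β.trans (star w) (β.trans h2 (RR.symm h1))
  rcases hx with hx | hx
  · obtain ⟨p1, p2, rfl⟩ := List.append_of_mem hx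
    have e := ((RR.refl (β := β) p1).append (hR p2)).append (RR.refl (β := β) q)
    simpa using e
  · obtain ⟨q1, q2, rfl⟩ := List.append_of_mem hx
    have e := ((RR.refl (β := β) p).append (hL q1)).append (RR.refl (β := β) q2)
    simpa using e

end Pool.Agent.MWBN.H27
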